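import Pool.Agent.W386.VSC

set_option autoImplicit false

/-!
# The virtual surjections theorem in all degrees (homological form)

If `Γ₁, …, Γₙ` are finitely generated groups of type `FP_k` (`2 ≤ k ≤ n`) and
`P ≤ Γ₁ × ⋯ × Γₙ` virtually surjects to `k`-tuples, then `P` is of type `FP_k`.
-/

namespace Pool.Agent.Results.MP_d943a5_al.VirtualSurjection

open Pool.Agent.W386

/-- Type `FP_k`: the trivial module `ℤ` has a partial resolution `F_k → ⋯ → F_0 → ℤ → 0` by
finitely generated free `ℤG`-modules. -/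
def TypeFP (k : ℕ) (G : Type) [Group G] : Prop := FPs (ZG G) (k + 1) (Triv G)

/-- `P` virtually surjects to `k`-tuples: every projection of `P` to `k` coordinates has
finite-index image. -/
def VirtSurj {n : ℕ} {Γ : Fin n → Type} [∀ i, Group (Γ i)] (P : Subgroup (∀ i, Γ i)) (k : ℕ) :
    Prop :=
  ∀ J : Finset (Fin n), J.card = k →
    (P.map (MonoidHom.pi fun j : J => Pi.evalMonoidHom Γ (j : Fin n))).FiniteIndex

theorem result {n k : ℕ} (hk : 2 ≤ k) (hkn : k ≤ n) (Γ : Fin n → Type) [∀ i, Group (Γ i)]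
    (hfg : ∀ i, Group.FG (Γ i)) (hΓ : ∀ i, TypeFP k (Γ i)) (P : Subgroup (∀ i, Γ i))
    (hP : VirtSurj P k) : TypeFP k P := by
  have hVS : VS k Finset.univ P := by
    intro J _ hJ
    obtain ⟨J', hJJ', hJ'⟩ := Finset.exists_superset_card_eq (n := k) hJ (by simpa using hkn)
    have h1 := hP J' hJ'
    let r : (∀ i, Γ i) →* (∀ j : J', Γ j) :=
      MonoidHom.pi fun j : J' => Pi.evalMonoidHom Γ (j : Fin n)
    have h2 : ((P.map r).comap r).FiniteIndex := fi_comap r _
    rw [Subgroup.comap_map_eq] at h2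
    refine Subgroup.finiteIndex_of_le (H := P ⊔ r.ker) (sup_le_sup_left ?_ P)
    intro x hx j hj
    exact congrFun (show r x = 1 from hx) ⟨j, hJJ' hj⟩
  exact vs_main hfg Finset.univ k P hΓ (fun x _ i hi => absurd (Finset.mem_univ i) hi)
    (hh_of_vs (fun i => Finset.mem_univ i) (hVS.mono hk)) hVS

end Pool.Agent.Results.MP_d943a5_al.VirtualSurjection
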